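import Pool.Agent.Lib.P6c46.Norm

/-!
MP_6c466c_co: the inequality of Q1 fails by a power, for finite sets and for fractional dilates.
-/

set_option autoImplicit false

open scoped ENNReal

namespace Pool.Agent.Results.MP_6c466c_co.PowerSaving

open Pool.Agent.P6c46

theorem result :
    -- (1) arbitrarily large finite sets with `|S + 2 S|` below a power of `|S + S|`
    (∀ J : ℕ, ∃ S : Finset ℤ, 4 ^ J ≤ S.card ∧ 16 ^ J ≤ (sumDil 1 S).card ∧
      (sumDil 2 S).card ≤ 5 * 10 ^ J) ∧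
    -- (2) the same for the norms of fractional dilates: the inequality of Q1 fails by a power
    (∀ n : ℕ, ∃ a : ℤ → ℝ, IsFracDilate a ∧ (n : ℝ) ≤ ∑' i, a i ∧
      nrm 2 a < nrm 1 a ∧ nrm 2 a ^ 6 ≤ nrm 1 a ^ 5) ∧
    -- (3) for all finite sets, a bound in the other direction
    (∀ S : Finset ℤ, (sumDil 1 S).card ^ 3 ≤ (sumDil 2 S).card ^ 4) := by
  refine ⟨fun J => ⟨SS J, family J⟩, fun n => ?_, card_sum_pow_le⟩
  obtain ⟨S, h1, h2, h3⟩ := power_saving n
  refine ⟨ind S, ind_fracDilate S, ?_, ?_, ?_⟩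
  · rw [tsum_ind]
    exact_mod_cast h1
  · rw [nrm_ind, nrm_ind]
    exact_mod_cast h2
  · rw [nrm_ind, nrm_ind]
    exact_mod_cast h3

end Pool.Agent.Results.MP_6c466c_co.PowerSaving
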